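import Pool.Agent.W696.QR.Defs

/-!
Adding an almost weakly null vector in an asymptotically uniformly smooth space (QR-AUS).
-/

set_option autoImplicit false
open Filter Topology

namespace Pool.Agent.W571.QR

variable {Y : Type} [NormedAddCommGroup Y] [NormedSpace ℝ Y]

/-- Finitely many functionals: the bounded net can be corrected by vectors of norm `≤ d + k`. -/
theorem exists_corr {Z : Type} (U : Ultrafilter Z) (g : Z → Y) (r d k : ℝ) (hk : 0 < k)
    (hg : ∀ᶠ z in (U : Filter Z), ‖g z‖ ≤ r)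
    (hd : ∀ φ : StrongDual ℝ Y, ‖φ‖ ≤ 1 → ∀ l : ℝ,
        Tendsto (fun z => φ (g z)) (U : Filter Z) (𝓝 l) → l ≤ d)
    (n : ℕ) (φ : Fin n → StrongDual ℝ Y) :
    ∀ᶠ z in (U : Filter Z), ∃ w : Y, ‖w‖ ≤ d + k ∧ ∀ i, φ i (g z - w) = 0 := by
  let Φ : Y →L[ℝ] (Fin n → ℝ) := ContinuousLinearMap.pi φ
  let E : Submodule ℝ Y := LinearMap.ker (Φ : Y →ₗ[ℝ] (Fin n → ℝ))
  have hE : IsClosed (E : Set Y) := Φ.isClosed_ker
  have hfin : FiniteDimensional ℝ (Y ⧸ E) :=
    (LinearMap.quotKerEquivRange (Φ : Y →ₗ[ℝ] (Fin n → ℝ))).symm.finiteDimensional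
  have hprop : ProperSpace (Y ⧸ E) := FiniteDimensional.proper_real _
  have hmk : ∀ y : Y, ‖(Submodule.Quotient.mk y : Y ⧸ E)‖ ≤ ‖y‖ :=
    fun y => Submodule.Quotient.norm_mk_le E y
  let V : Ultrafilter (Y ⧸ E) := U.map fun z => Submodule.Quotient.mk (g z)
  have hV : (V : Filter (Y ⧸ E)) ≤ 𝓟 (Metric.closedBall 0 r) := by
    rw [le_principal_iff]
    change ∀ᶠ z in (U : Filter Z), (Submodule.Quotient.mk (g z) : Y ⧸ E) ∈ Metric.closedBall 0 r
    filter_upwards [hg] with z hz
    rw [mem_closedBall_zero_iff]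
    exact (hmk _).trans hz
  obtain ⟨c, -, hc⟩ := (isCompact_closedBall (0 : Y ⧸ E) r).ultrafilter_le_nhds V hV
  have hlim : Tendsto (fun z => (Submodule.Quotient.mk (g z) : Y ⧸ E)) (U : Filter Z) (𝓝 c) := hc
  have hcd : ‖c‖ ≤ d := by
    obtain ⟨ψ, hψ1, hψ2⟩ := exists_dual_vector'' ℝ c
    let π : Y →L[ℝ] (Y ⧸ E) := LinearMap.mkContinuous E.mkQ 1 (fun y => by
      rw [one_mul]; exact hmk y)
    have h1 : ‖ψ.comp π‖ ≤ 1 := by
      refine ContinuousLinearMap.opNorm_le_bound _ zero_le_one fun y => ?_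
      calc ‖ψ.comp π y‖ ≤ ‖ψ‖ * ‖(Submodule.Quotient.mk y : Y ⧸ E)‖ := ψ.le_opNorm _
        _ ≤ 1 * ‖y‖ := mul_le_mul hψ1 (hmk y) (norm_nonneg _) zero_le_one
    refine hd (ψ.comp π) h1 ‖c‖ ?_
    have h2 : Tendsto (fun z => ψ (Submodule.Quotient.mk (g z) : Y ⧸ E)) (U : Filter Z)
        (𝓝 (ψ c)) := (ψ.continuous.tendsto c).comp hlim
    have h3 : ψ c = ‖c‖ := by rw [hψ2]; simp
    rw [h3] at h2
    exact h2
  have hev : ∀ᶠ z in (U : Filter Z), ‖(Submodule.Quotient.mk (g z) : Y ⧸ E)‖ < d + k / 2 := by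
    have h1 : Tendsto (fun z => ‖(Submodule.Quotient.mk (g z) : Y ⧸ E)‖) (U : Filter Z)
        (𝓝 ‖c‖) := (continuous_norm.tendsto c).comp hlim
    exact h1.eventually (gt_mem_nhds (by linarith))
  filter_upwards [hev] with z hz
  obtain ⟨w, hw1, hw2⟩ := Submodule.Quotient.norm_mk_lt
    (Submodule.Quotient.mk (g z) : Y ⧸ E) (half_pos hk)
  refine ⟨w, by linarith, ?_⟩
  have h1 : g z - w ∈ E := by
    rw [← Submodule.Quotient.eq]
    exact hw1.symm
  intro i
  have h2 : Φ (g z - w) = 0 := h1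
  exact congrFun h2 i

theorem main_aus : Pool.Agent.W696.QR.S_aus := by
  intro Y _ _ hY ε hε
  obtain ⟨δ, hδ, H⟩ := hY (ε / 4) (by positivity)
  have hRδ : 3 / (3 / δ + 4) < δ := by
    rw [div_lt_iff₀ (by positivity)]
    have : δ * (3 / δ + 4) = 3 + 4 * δ := by field_simp
    linarith
  set R : ℝ := 3 / δ + 4 with hR
  have hR0 : 0 < R := by positivity
  refine ⟨R, hR0, ?_⟩
  intro Z U g r d hd0 hg hd y κ hκ
  rcases lt_trichotomy r 0 with hr | hr | hr
  · -- impossible
    have : ∀ᶠ z in (U : Filter Z), False := by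
      filter_upwards [hg] with z hz
      linarith [norm_nonneg (g z)]
    exact this.mono fun _ h => h.elim
  · subst hr
    filter_upwards [hg] with z hz
    have : g z = 0 := norm_le_zero_iff.1 hz
    rw [this, add_zero, mul_zero, mul_zero]
    have := le_max_left ‖y‖ 0
    linarith
  · -- local smoothness
    have key : ∀ u : Y, R * r ≤ ‖u‖ → ∃ n : ℕ, ∃ φ : Fin n → StrongDual ℝ Y,
        ∀ e : Y, (∀ i, φ i e = 0) → ‖e‖ ≤ 3 * r → ‖u + e‖ ≤ ‖u‖ + ε * r := by
      intro u hu
      have hu0 : 0 < ‖u‖ := lt_of_lt_of_le (by positivity) hu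
      have ht : 3 * r / ‖u‖ < δ := by
        refine lt_of_le_of_lt ?_ hRδ
        rw [div_le_div_iff₀ hu0 hR0]
        nlinarith
      obtain ⟨n, φ, hφ⟩ := H (3 * r / ‖u‖) (by positivity) ht (‖u‖⁻¹ • u) (by
        rw [norm_smul, norm_inv, norm_norm, inv_mul_cancel₀ hu0.ne'])
      refine ⟨n, φ, fun e he1 he2 => ?_⟩
      have h1 := hφ (‖u‖⁻¹ • e) (fun i => by rw [map_smul, he1, smul_zero]) (by
        rw [norm_smul, norm_inv, norm_norm, div_eq_inv_mul]
        exact mul_le_mul_of_nonneg_left he2 (by positivity))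
      rw [← smul_add, norm_smul, norm_inv, norm_norm] at h1
      have h2 : ‖u + e‖ ≤ ‖u‖ * (1 + ε / 4 * (3 * r / ‖u‖)) := by
        rw [inv_mul_le_iff₀ hu0] at h1
        exact h1
      have h3 : ‖u‖ * (1 + ε / 4 * (3 * r / ‖u‖)) = ‖u‖ + ε / 4 * (3 * r) := by
        field_simp
      rw [h3] at h2
      nlinarith
    set d' := min d r with hd'
    have hd'0 : 0 ≤ d' := le_min hd0 hr.le
    have hd'' : ∀ φ : StrongDual ℝ Y, ‖φ‖ ≤ 1 → ∀ l : ℝ,
        Tendsto (fun z => φ (g z)) (U : Filter Z) (𝓝 l) → l ≤ d' := by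
      intro φ hφ l hl
      refine le_min (hd φ hφ l hl) ?_
      refine le_of_tendsto hl ?_
      filter_upwards [hg] with z hz
      calc φ (g z) ≤ ‖φ (g z)‖ := le_abs_self _
        _ ≤ ‖φ‖ * ‖g z‖ := φ.le_opNorm _
        _ ≤ 1 * r := mul_le_mul hφ hz (norm_nonneg _) zero_le_one
        _ = r := one_mul r
    set k := min (κ / 2) r with hkdef
    have hk : 0 < k := lt_min (by positivity) hr
    by_cases hy : R * r ≤ ‖y‖
    · obtain ⟨n, φ, hφ⟩ := key y hy
      filter_upwards [exists_corr U g r d' k hk hg hd'' n φ, hg] with z ⟨w, hw1, hw2⟩ hz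
      have h1 : ‖g z - w‖ ≤ 3 * r := by
        have := norm_sub_le (g z) w
        have := min_le_right d r
        have := min_le_right (κ / 2) r
        linarith
      have h2 := hφ _ hw2 h1
      have h3 : y + g z = (y + (g z - w)) + w := by abel
      rw [h3]
      have := norm_add_le (y + (g z - w)) w
      have := min_le_left d r
      have := min_le_left (κ / 2) r
      have := le_max_left ‖y‖ (R * r)
      linarith
    · push Not at hy
      rcases subsingleton_or_nontrivial Y with hs | hn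
      · refine Eventually.of_forall fun z => ?_
        have h0 : y + g z = 0 := Subsingleton.elim _ _
        rw [h0, norm_zero]
        have : 0 ≤ max ‖y‖ (R * r) := le_max_of_le_left (norm_nonneg _)
        positivity
      · obtain ⟨u, s, hu, hs0, hs1, hus⟩ : ∃ (u : Y) (s : ℝ), ‖u‖ = R * r ∧ 0 ≤ s ∧ s ≤ 1 ∧
            y = s • u := by
          by_cases hy0 : y = 0
          · obtain ⟨u, hu⟩ := NormedSpace.exists_lt_norm ℝ Y 0
            refine ⟨(R * r / ‖u‖) • u, 0, ?_, le_rfl, zero_le_one, by rw [hy0, zero_smul]⟩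
            rw [norm_smul, Real.norm_of_nonneg (by positivity)]
            field_simp
          · have hy1 : 0 < ‖y‖ := norm_pos_iff.2 hy0
            refine ⟨(R * r / ‖y‖) • y, ‖y‖ / (R * r), ?_, by positivity, ?_, ?_⟩
            · rw [norm_smul, Real.norm_of_nonneg (by positivity)]
              field_simp
            · rw [div_le_one (by positivity)]
              exact hy.le
            · rw [smul_smul]
              have : ‖y‖ / (R * r) * (R * r / ‖y‖) = 1 := by field_simp
              rw [this, one_smul]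
        obtain ⟨n, φ, hφ⟩ := key u hu.ge
        filter_upwards [exists_corr U g r d' k hk hg hd'' n φ, hg] with z ⟨w, hw1, hw2⟩ hz
        have h1 : ‖g z - w‖ ≤ 3 * r := by
          have := norm_sub_le (g z) w
          have := min_le_right d r
          have := min_le_right (κ / 2) r
          linarith
        have h2 := hφ _ hw2 h1
        have h2' := hφ (-(g z - w)) (fun i => by rw [map_neg, hw2, neg_zero]) (by rwa [norm_neg])
        set e := g z - w with he
        have h4 : y + e = ((1 + s) / 2) • (u + e) + (-((1 - s) / 2)) • (u + -e) := by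
          rw [hus]
          module
        have h5 : ‖y + e‖ ≤ R * r + ε * r := by
          rw [h4]
          refine (norm_add_le _ _).trans ?_
          rw [norm_smul, norm_smul, norm_neg, Real.norm_of_nonneg (by linarith),
            Real.norm_of_nonneg (by linarith)]
          rw [hu] at h2 h2'
          have a1 : (1 + s) / 2 * ‖u + e‖ ≤ (1 + s) / 2 * (R * r + ε * r) :=
            mul_le_mul_of_nonneg_left h2 (by linarith)
          have a2 : (1 - s) / 2 * ‖u + -e‖ ≤ (1 - s) / 2 * (R * r + ε * r) :=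
            mul_le_mul_of_nonneg_left h2' (by linarith)
          linarith
        have h3 : y + g z = (y + e) + w := by rw [he]; abel
        rw [h3]
        have := norm_add_le (y + e) w
        have := min_le_left d r
        have := min_le_left (κ / 2) r
        have := le_max_right ‖y‖ (R * r)
        linarith

end Pool.Agent.W571.QR
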