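import Pool.Agent.W696.QR.Defs
import Pool.Agent.H825R3.James

/-!
Goldstine's theorem with ultrafilters and the bidual of a quasi-reflexive space
(subtasks QR-G and QR-SPLIT).
-/

set_option autoImplicit false
open Filter Topology

namespace Pool.Agent.W571.QR

theorem norm_aux {E : Type} [NormedAddCommGroup E] [NormedSpace ℝ E] (a : E) :
    ‖(‖a‖ + 1)⁻¹ • a‖ ≤ 1 := by
  have hpos : 0 < ‖a‖ + 1 := by positivity
  rw [norm_smul, norm_inv, Real.norm_of_nonneg hpos.le, inv_mul_le_iff₀ hpos]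
  linarith

theorem main_goldstine : Pool.Agent.W696.QR.S_goldstine := by
  intro X _ _ a
  let T : X → (StrongDual ℝ X → ℝ) := fun x φ => φ x
  have hcl : (fun φ => a φ) ∈ closure (T '' Metric.closedBall 0 (‖a‖ + 1)) := by
    rw [mem_closure_iff]
    intro o ho hao
    rw [isOpen_pi_iff] at ho
    obtain ⟨I, u, hu, hIu⟩ := ho _ hao
    have hδ : ∀ φ : StrongDual ℝ X, ∃ δ : ℝ, 0 < δ ∧ (φ ∈ I → Metric.ball (a φ) δ ⊆ u φ) := by
      intro φ
      by_cases h : φ ∈ I
      · obtain ⟨δ, h1, h2⟩ := Metric.isOpen_iff.1 (hu φ h).1 _ (hu φ h).2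
        exact ⟨δ, h1, fun _ => h2⟩
      · exact ⟨1, one_pos, fun h' => absurd h' h⟩
    choose δ hδ0 hδ1 using hδ
    obtain ⟨ε, hε0, hε⟩ : ∃ ε : ℝ, 0 < ε ∧ ∀ φ ∈ I, ε < δ φ := by
      classical
      clear hIu hu hδ1
      induction I using Finset.induction_on with
      | empty => exact ⟨1, one_pos, by simp⟩
      | insert φ I hφ ih =>
        obtain ⟨ε, h1, h2⟩ := ih
        refine ⟨min ε (δ φ / 2), lt_min h1 (half_pos (hδ0 φ)), ?_⟩
        intro ψ hψ
        rcases Finset.mem_insert.1 hψ with rfl | h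
        · exact lt_of_le_of_lt (min_le_right _ _) (half_lt_self (hδ0 ψ))
        · exact lt_of_le_of_lt (min_le_left _ _) (h2 ψ h)
    have hpos : 0 < ‖a‖ + 1 := by positivity
    obtain ⟨x, hx1, hx2⟩ := Pool.Agent.H825R3.goldstine (F := (‖a‖ + 1)⁻¹ • a)
      (norm_aux a) (δ := ε / (‖a‖ + 1)) (by positivity) I
    refine ⟨T ((‖a‖ + 1) • x), ?_, ?_⟩
    · apply hIu
      intro φ hφ
      apply hδ1 φ hφ
      rw [Metric.mem_ball, Real.dist_eq]
      have h1 := hx2 φ hφ
      refine lt_of_le_of_lt ?_ (hε φ hφ)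
      change |φ ((‖a‖ + 1) • x) - a φ| ≤ ε
      rw [map_smul, smul_eq_mul]
      have h2 : (‖a‖ + 1) * φ x - a φ = (‖a‖ + 1) * (φ x - ((‖a‖ + 1)⁻¹ • a) φ) := by
        change _ = (‖a‖ + 1) * (φ x - (‖a‖ + 1)⁻¹ * a φ)
        field_simp
      rw [h2, abs_mul, abs_of_pos hpos]
      calc (‖a‖ + 1) * |φ x - ((‖a‖ + 1)⁻¹ • a) φ| ≤ (‖a‖ + 1) * (ε / (‖a‖ + 1)) :=
            mul_le_mul_of_nonneg_left h1 hpos.le
        _ = ε := by field_simp
    · refine ⟨_, ?_, rfl⟩
      rw [mem_closedBall_zero_iff, norm_smul, Real.norm_of_nonneg hpos.le]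
      calc (‖a‖ + 1) * ‖x‖ ≤ (‖a‖ + 1) * 1 := mul_le_mul_of_nonneg_left hx1 hpos.le
        _ = ‖a‖ + 1 := mul_one _
  obtain ⟨u, hu1, hu2⟩ := mem_closure_iff_ultrafilter.1 hcl
  refine ⟨Ultrafilter.ofComapInfPrincipal hu1, ?_, ?_⟩
  · have h := Ultrafilter.ofComapInfPrincipal_mem hu1
    filter_upwards [h] with x hx
    simpa using hx
  · have h := Ultrafilter.ofComapInfPrincipal_eq_of_map hu1
    have ht : Tendsto T (Ultrafilter.ofComapInfPrincipal hu1 : Filter X) (𝓝 fun φ => a φ) := by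
      have h' : Filter.map T (Ultrafilter.ofComapInfPrincipal hu1 : Filter X) = u := by
        exact congrArg (fun v : Ultrafilter (StrongDual ℝ X → ℝ) => (v : Filter (StrongDual ℝ X → ℝ))) h
      rw [Tendsto, h']
      exact hu2
    rw [tendsto_pi_nhds] at ht
    exact ht

theorem split_aux {Y E : Type} [NormedAddCommGroup Y] [NormedSpace ℝ Y] [CompleteSpace Y]
    [NormedAddCommGroup E] [NormedSpace ℝ E] (J : Y →ₗᵢ[ℝ] E) (n : ℕ) (ψ : Fin n → E)
    (hψ : ∀ z, ∃ (y : Y) (c : Fin n → ℝ), z = J y + ∑ i, c i • ψ i) :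
    ∃ (m : ℕ) (Q : E →L[ℝ] (Fin m → ℝ)) (σ : (Fin m → ℝ) →L[ℝ] E) (P : E →L[ℝ] Y),
      (∀ z, z = J (P z) + σ (Q z)) ∧ (∀ y, P (J y) = y) ∧ (∀ y, Q (J y) = 0) := by
  let G : Submodule ℝ E := LinearMap.range J.toLinearMap
  have hclosed : IsClosed (G : Set E) := by
    have := J.isometry.isUniformInducing.isComplete_range.isClosed
    rw [show (G : Set _) = Set.range J from LinearMap.coe_range J.toLinearMap]
    exact this
  have hfin : FiniteDimensional ℝ (E ⧸ G) := by
    have hspan : Submodule.span ℝ (Set.range fun i => G.mkQ (ψ i)) = ⊤ := by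
      rw [eq_top_iff]
      rintro w -
      obtain ⟨z, rfl⟩ := G.mkQ_surjective w
      obtain ⟨y, c, hz⟩ := hψ z
      rw [hz, map_add, map_sum]
      refine Submodule.add_mem _ ?_ ?_
      · have : G.mkQ (J y) = 0 := by
          rw [Submodule.mkQ_apply, Submodule.Quotient.mk_eq_zero]
          exact ⟨y, rfl⟩
        rw [this]
        exact Submodule.zero_mem _
      · refine Submodule.sum_mem _ fun i _ => ?_
        rw [map_smul]
        exact Submodule.smul_mem _ _ (Submodule.subset_span ⟨i, rfl⟩)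
    exact Module.finite_def.2 ⟨(Set.finite_range fun i => G.mkQ (ψ i)).toFinset, by
      rw [Set.Finite.coe_toFinset]; exact hspan⟩
  obtain ⟨f, hf⟩ := Submodule.ClosedComplemented.of_finiteDimensional_quotient hclosed
  have hcompl : IsCompl G (LinearMap.ker (f : E →ₗ[ℝ] G)) :=
    LinearMap.isCompl_of_proj hf
  let K : Submodule ℝ E := LinearMap.ker (f : E →ₗ[ℝ] G)
  have hKfin : FiniteDimensional ℝ K :=
    (Submodule.quotientEquivOfIsCompl G K hcompl).finiteDimensional
  let e : K ≃L[ℝ] (Fin (Module.finrank ℝ K) → ℝ) :=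
    ContinuousLinearEquiv.ofFinrankEq (by simp)
  let g : E →L[ℝ] E := ContinuousLinearMap.id ℝ _ - G.subtypeL.comp f
  have hg : ∀ z, g z ∈ K := by
    intro z
    change f (z - (f z : E)) = 0
    rw [map_sub, hf, sub_self]
  have h1 : ∀ y, f (J y) = J.equivRange y := fun y => hf (J.equivRange y)
  refine ⟨Module.finrank ℝ K, (e : K →L[ℝ] _).comp (g.codRestrict K hg),
    K.subtypeL.comp (e.symm : _ →L[ℝ] K),
    (J.equivRange.symm.toContinuousLinearEquiv : G →L[ℝ] Y).comp f, ?_, ?_, ?_⟩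
  · intro z
    have h2 : J (J.equivRange.symm (f z)) = f z :=
      congrArg Subtype.val (J.equivRange.apply_symm_apply (f z))
    change z = J (J.equivRange.symm (f z)) + ((e.symm (e (g.codRestrict K hg z)) : K) : E)
    rw [h2, e.symm_apply_apply]
    change z = (f z : E) + (z - (f z : E))
    abel
  · intro y
    change J.equivRange.symm (f (J y)) = y
    rw [h1, J.equivRange.symm_apply_apply]
  · intro y
    have h2 : g.codRestrict K hg (J y) = 0 := by
      apply Subtype.ext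
      change J y - (f (J y) : E) = 0
      rw [h1]
      exact sub_self _
    change e (g.codRestrict K hg (J y)) = 0
    rw [h2, map_zero]

theorem main_split : Pool.Agent.W696.QR.S_split := by
  intro Y _ _ _ ⟨n, ψ, hψ⟩
  exact split_aux (NormedSpace.inclusionInDoubleDualLi ℝ) n ψ hψ

end Pool.Agent.W571.QR
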